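import Pool.Agent.Q171.Hart.Inv

set_option autoImplicit false

open Set Filter Topology
open scoped ContDiff

namespace Pool.Agent.Q171.Hart

/-- a strictly decreasing sequence of smooth positive functions on the plane -/
structure Good (V : ℕ → ℂ → ℝ) : Prop where
  smooth : ∀ m, ContDiff ℝ ∞ (V m)
  pos : ∀ m w, 0 < V m w
  anti : ∀ m w, V (m + 1) w < V m w

/-- the Hartogs domain -/
def Dom (V : ℕ → ℂ → ℝ) : Set (ℂ × ℂ) := {p | ∃ k, ‖p.1‖ ^ 2 * V k p.2 < 1}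

noncomputable def T (V : ℕ → ℂ → ℝ) (m : ℕ) (s : ℝ) (w : ℂ) : ℝ :=
  Real.smoothTransition ((s * V m w - 1) / (1 - V (m + 1) w / V m w))

noncomputable def h (V : ℕ → ℂ → ℝ) (s : ℝ) (w : ℂ) : ℝ := ∑' m, T V m s w

variable {V : ℕ → ℂ → ℝ}

theorem Good.antitone (hV : Good V) (w : ℂ) : Antitone (fun m => V m w) :=
  antitone_nat_of_succ_le fun m => (hV.anti m w).le

theorem Good.denom (hV : Good V) (m : ℕ) (w : ℂ) : 0 < 1 - V (m + 1) w / V m w := by
  rw [sub_pos, div_lt_one (hV.pos m w)]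
  exact hV.anti m w

theorem T_nonneg (m : ℕ) (s : ℝ) (w : ℂ) : 0 ≤ T V m s w := Real.smoothTransition.nonneg _

theorem T_mono (hV : Good V) (m : ℕ) (w : ℂ) {s s' : ℝ} (hs : s ≤ s') :
    T V m s w ≤ T V m s' w := by
  apply Real.smoothTransition.monotone
  have := hV.denom m w
  have := hV.pos m w
  gcongr

theorem T_zero (hV : Good V) {k m : ℕ} (hkm : k ≤ m) {s : ℝ} (hs0 : 0 ≤ s) {w : ℂ}
    (hs : s * V k w < 1) : T V m s w = 0 := by
  apply Real.smoothTransition.zero_of_nonpos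
  apply div_nonpos_of_nonpos_of_nonneg _ (hV.denom m w).le
  have := hV.antitone w hkm
  simp only at this
  nlinarith

theorem T_one (hV : Good V) {m : ℕ} {s : ℝ} {w : ℂ}
    (hs : 1 ≤ s * V (m + 1) w) : T V m s w = 1 := by
  apply Real.smoothTransition.one_of_one_le
  rw [one_le_div (hV.denom m w)]
  have h0 := hV.pos m w
  have h1 := hV.pos (m + 1) w
  have hs0 : 0 < s := by
    by_contra hcon
    push Not at hcon
    nlinarith
  have h2 : V m w / V (m + 1) w ≤ s * V m w := by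
    rw [div_le_iff₀ h1]; nlinarith
  have h3 : 2 ≤ V m w / V (m + 1) w + V (m + 1) w / V m w := by
    rw [div_add_div _ _ h1.ne' h0.ne', le_div_iff₀ (by positivity)]
    nlinarith [sq_nonneg (V m w - V (m + 1) w)]
  linarith

theorem h_eq (hV : Good V) {k : ℕ} {s : ℝ} (hs0 : 0 ≤ s) {w : ℂ}
    (hs : s * V k w < 1) : h V s w = ∑ m ∈ Finset.range k, T V m s w := by
  apply tsum_eq_sum
  intro m hm
  rw [Finset.mem_range, not_lt] at hm
  exact T_zero hV hm hs0 hs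

theorem h_nonneg (s : ℝ) (w : ℂ) : 0 ≤ h V s w := tsum_nonneg fun m => T_nonneg m s w

theorem h_mono (hV : Good V) {k : ℕ} {s s' : ℝ} (hs0 : 0 ≤ s) (hss : s ≤ s') {w : ℂ}
    (hs : s' * V k w < 1) : h V s w ≤ h V s' w := by
  have h0 := hV.pos k w
  rw [h_eq hV hs0 (k := k) (by nlinarith), h_eq hV (hs0.trans hss) hs]
  exact Finset.sum_le_sum fun m _ => T_mono hV m w hss

theorem h_ge (hV : Good V) {k : ℕ} {s : ℝ} (hs0 : 0 ≤ s) {w : ℂ}
    (hs : s * V (k + 1) w < 1) (hk : 1 ≤ s * V k w) : (k : ℝ) ≤ h V s w := by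
  rw [h_eq hV hs0 hs]
  calc (k : ℝ) = ∑ m ∈ Finset.range k, (1 : ℝ) := by simp
    _ ≤ ∑ m ∈ Finset.range k, T V m s w := by
        apply Finset.sum_le_sum
        intro m hm
        rw [Finset.mem_range] at hm
        rw [T_one hV]
        have := hV.antitone w (show m + 1 ≤ k by omega)
        simp only at this
        nlinarith
    _ ≤ ∑ m ∈ Finset.range (k + 1), T V m s w := by
        apply Finset.sum_le_sum_of_subset_of_nonneg
        · exact Finset.range_subset_range.mpr (by omega)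
        · intro m _ _; exact T_nonneg m s w

/-- the function on the domain -/
noncomputable def H (V : ℕ → ℂ → ℝ) (p : ℂ × ℂ) : ℝ := h V (‖p.1‖ ^ 2) p.2

noncomputable def Phi (V : ℕ → ℂ → ℝ) (p : ℂ × ℂ) : ℂ × ℂ := ((1 + H V p) • p.1, p.2)

theorem isOpen_level (hV : Good V) (k : ℕ) : IsOpen {p : ℂ × ℂ | ‖p.1‖ ^ 2 * V k p.2 < 1} := by
  have : Continuous (V k) := (hV.smooth k).continuous
  exact isOpen_lt (by fun_prop) continuous_const

theorem isOpen_dom (hV : Good V) : IsOpen (Dom V) := by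
  have : Dom V = ⋃ k, {p : ℂ × ℂ | ‖p.1‖ ^ 2 * V k p.2 < 1} := by
    ext p; simp [Dom]
  rw [this]
  exact isOpen_iUnion fun k => isOpen_level hV k

theorem T_smooth (hV : Good V) (m : ℕ) :
    ContDiff ℝ ∞ (fun p : ℂ × ℂ => T V m (‖p.1‖ ^ 2) p.2) := by
  unfold T
  apply Real.smoothTransition.contDiff.comp
  have h1 : ContDiff ℝ ∞ (fun p : ℂ × ℂ => V m p.2) := (hV.smooth m).comp contDiff_snd
  have h2 : ContDiff ℝ ∞ (fun p : ℂ × ℂ => V (m + 1) p.2) := (hV.smooth (m + 1)).comp contDiff_snd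
  have h3 : ContDiff ℝ ∞ (fun p : ℂ × ℂ => ‖p.1‖ ^ 2) := (contDiff_norm_sq ℂ).comp contDiff_fst
  apply ContDiff.div
  · exact (h3.mul h1).sub contDiff_const
  · exact contDiff_const.sub (h2.div h1 fun p => (hV.pos m p.2).ne')
  · intro p; exact (hV.denom m p.2).ne'

theorem H_smooth (hV : Good V) {p : ℂ × ℂ} (hp : p ∈ Dom V) : ContDiffAt ℝ ∞ (H V) p := by
  obtain ⟨k, hk⟩ := hp
  have h1 : ContDiff ℝ ∞ (fun p : ℂ × ℂ => ∑ m ∈ Finset.range k, T V m (‖p.1‖ ^ 2) p.2) :=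
    ContDiff.sum fun m _ => T_smooth hV m
  apply h1.contDiffAt.congr_of_eventuallyEq
  filter_upwards [(isOpen_level hV k).mem_nhds hk] with q hq
  exact h_eq hV (by positivity) hq

theorem Phi_smooth (hV : Good V) {p : ℂ × ℂ} (hp : p ∈ Dom V) : ContDiffAt ℝ ∞ (Phi V) p := by
  have h1 := H_smooth hV hp
  unfold Phi
  exact ((contDiffAt_const.add h1).smul contDiffAt_fst).prodMk contDiffAt_snd

theorem H_nonneg (p : ℂ × ℂ) : 0 ≤ H V p := h_nonneg _ _

/-- radial profile -/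
theorem profile_lt (hV : Good V) {w : ℂ} {r r' : ℝ} (hr : 0 ≤ r) (hrr : r < r') {k : ℕ}
    (hk : r' ^ 2 * V k w < 1) : r * (1 + h V (r ^ 2) w) < r' * (1 + h V (r' ^ 2) w) := by
  have h1 : h V (r ^ 2) w ≤ h V (r' ^ 2) w := h_mono hV (by positivity) (by gcongr) hk
  have h2 := h_nonneg (V := V) (r ^ 2) w
  nlinarith

theorem Phi_norm (p : ℂ × ℂ) : ‖(Phi V p).1‖ = ‖p.1‖ * (1 + h V (‖p.1‖ ^ 2) p.2) := by
  simp only [Phi]
  rw [norm_smul, Real.norm_of_nonneg (by linarith [H_nonneg (V := V) p]), mul_comm]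
  rfl

theorem Phi_inj (hV : Good V) : InjOn (Phi V) (Dom V) := by
  rintro p ⟨k, hk⟩ q ⟨l, hl⟩ hpq
  have h2' : (Phi V p).2 = (Phi V q).2 := by rw [hpq]
  have h2 : p.2 = q.2 := h2'
  have h1' : (Phi V p).1 = (Phi V q).1 := by rw [hpq]
  have h1 : (1 + H V p) • p.1 = (1 + H V q) • q.1 := h1'
  have hn : ‖p.1‖ * (1 + h V (‖p.1‖ ^ 2) p.2) = ‖q.1‖ * (1 + h V (‖q.1‖ ^ 2) q.2) := by
    rw [← Phi_norm, ← Phi_norm, hpq]
  rw [← h2] at hn hl
  have hnorm : ‖p.1‖ = ‖q.1‖ := by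
    rcases lt_trichotomy ‖p.1‖ ‖q.1‖ with h | h | h
    · exact absurd hn (profile_lt hV (norm_nonneg _) h hl).ne
    · exact h
    · exact absurd hn (profile_lt hV (norm_nonneg _) h hk).ne'
  have hH : H V p = H V q := by unfold H; rw [hnorm, h2]
  rw [hH] at h1
  have hpos : (1 + H V q) ≠ 0 := by linarith [H_nonneg (V := V) q]
  have h3 : p.1 = q.1 := smul_right_injective ℂ hpos h1
  exact Prod.ext h3 h2

theorem Phi_surj (hV : Good V) (q : ℂ × ℂ) : ∃ p ∈ Dom V, Phi V p = q := by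
  obtain ⟨y, w⟩ := q
  have hV0 := hV.pos 0 w
  obtain ⟨k, hk⟩ := exists_nat_ge (‖y‖ * Real.sqrt (V 0 w))
  have hVk := hV.pos k w
  set R : ℝ := (Real.sqrt (V k w))⁻¹ with hR
  have hR0 : 0 < R := by rw [hR]; exact inv_pos.mpr (Real.sqrt_pos.mpr hVk)
  have hR2 : R ^ 2 * V k w = 1 := by
    rw [hR, inv_pow, Real.sq_sqrt hVk.le, inv_mul_cancel₀ hVk.ne']
  have hRk1 : R ^ 2 * V (k + 1) w < 1 := by
    rw [← hR2]
    have := hV.anti k w
    have : 0 < R ^ 2 := by positivity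
    nlinarith
  -- continuity of the profile on `[0, R]`
  have hcont : ContinuousOn (fun r : ℝ => r * (1 + h V (r ^ 2) w)) (Icc 0 R) := by
    have hsum : ContinuousOn (fun r : ℝ =>
        r * (1 + ∑ m ∈ Finset.range (k + 1), T V m (r ^ 2) w)) (Icc 0 R) := by
      apply Continuous.continuousOn
      have hT : ∀ m, Continuous fun r : ℝ => T V m (r ^ 2) w := by
        intro m
        unfold T
        exact Real.smoothTransition.continuous.comp (by fun_prop)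
      have := continuous_finsetSum (Finset.range (k + 1)) fun m _ => hT m
      fun_prop
    apply hsum.congr
    intro r hr
    simp only
    rw [h_eq hV (by positivity) (k := k + 1)]
    have h1 : r ^ 2 ≤ R ^ 2 := pow_le_pow_left₀ hr.1 hr.2 2
    have := hV.pos (k + 1) w
    nlinarith
  have hend : ‖y‖ ≤ R * (1 + h V (R ^ 2) w) := by
    have h1 : (k : ℝ) ≤ h V (R ^ 2) w := h_ge hV (by positivity) hRk1 hR2.ge
    have h2 : (Real.sqrt (V 0 w))⁻¹ ≤ R := by
      rw [hR]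
      apply inv_anti₀ (Real.sqrt_pos.mpr hVk)
      exact Real.sqrt_le_sqrt (hV.antitone w (Nat.zero_le k))
    have h3 : 0 < Real.sqrt (V 0 w) := Real.sqrt_pos.mpr hV0
    calc ‖y‖ = (Real.sqrt (V 0 w))⁻¹ * (‖y‖ * Real.sqrt (V 0 w)) := by field_simp
      _ ≤ R * (k : ℝ) := by
          gcongr
      _ ≤ R * (1 + h V (R ^ 2) w) := by gcongr; linarith
  have hivt := intermediate_value_Icc hR0.le hcont
  have hmem : ‖y‖ ∈ Icc ((0 : ℝ) * (1 + h V (0 ^ 2) w)) (R * (1 + h V (R ^ 2) w)) :=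
    ⟨by simp, hend⟩
  obtain ⟨r, ⟨hr0, hrR⟩, hr⟩ := hivt hmem
  simp only at hr
  have hrk : r ^ 2 * V (k + 1) w < 1 := by
    have h1 : r ^ 2 ≤ R ^ 2 := pow_le_pow_left₀ hr0 hrR 2
    have := hV.pos (k + 1) w
    nlinarith
  by_cases hy : y = 0
  · subst hy
    refine ⟨(0, w), ⟨0, by simp⟩, ?_⟩
    simp [Phi]
  · have hyn : ‖y‖ ≠ 0 := norm_ne_zero_iff.mpr hy
    have hzn : ‖(r / ‖y‖ : ℝ) • y‖ = r := by
      rw [norm_smul, Real.norm_of_nonneg (by positivity)]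
      field_simp
    refine ⟨((r / ‖y‖ : ℝ) • y, w), ⟨k + 1, ?_⟩, ?_⟩
    · simp only [hzn]; exact hrk
    · simp only [Phi, H, hzn]
      rw [smul_smul]
      have : (1 + h V (r ^ 2) w) * (r / ‖y‖) = 1 := by
        rw [← hr] at hyn ⊢
        rw [mul_div_assoc', mul_comm (1 + h V (r ^ 2) w) r]
        exact div_self hyn
      rw [this, one_smul]

theorem radial_deriv (hV : Good V) {p : ℂ × ℂ} (hp : p ∈ Dom V) :
    0 ≤ fderiv ℝ (H V) p (p.1, 0) := by
  have hd : DifferentiableAt ℝ (H V) p := (H_smooth hV hp).differentiableAt (by simp)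
  have h1 : HasDerivAt (fun t : ℝ => H V (p + t • (p.1, (0 : ℂ)))) (fderiv ℝ (H V) p (p.1, 0)) 0 := by
    have h2 : HasDerivAt (fun t : ℝ => p + t • (p.1, (0 : ℂ))) (p.1, (0 : ℂ)) 0 := by
      simpa using ((hasDerivAt_id (0 : ℝ)).smul_const ((p.1, (0 : ℂ)) : ℂ × ℂ)).const_add p
    have h3 : HasFDerivAt (H V) (fderiv ℝ (H V) p) (p + (0 : ℝ) • (p.1, (0 : ℂ))) := by
      rw [zero_smul, add_zero]; exact hd.hasFDerivAt
    exact h3.comp_hasDerivAt 0 h2
  have hslope := h1.tendsto_slope_zero_right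
  have hcont : Continuous (fun t : ℝ => p + t • (p.1, (0 : ℂ))) := by fun_prop
  have hev : ∀ᶠ t : ℝ in 𝓝[>] 0, p + t • (p.1, (0 : ℂ)) ∈ Dom V := by
    apply nhdsWithin_le_nhds
    apply hcont.continuousAt.eventually
    have e0 : (fun t : ℝ => p + t • (p.1, (0 : ℂ))) 0 = p := by simp
    rw [e0]
    exact (isOpen_dom hV).mem_nhds hp
  refine ge_of_tendsto hslope ?_
  filter_upwards [hev, self_mem_nhdsWithin] with t ht ht0
  have ht0' : 0 < t := ht0
  simp only [zero_add, zero_smul, add_zero]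
  apply smul_nonneg (by positivity)
  rw [sub_nonneg]
  obtain ⟨k, hk⟩ := ht
  unfold H
  have e1 : (p + t • (p.1, (0 : ℂ))).2 = p.2 := by simp
  have e2 : ‖(p + t • (p.1, (0 : ℂ))).1‖ = (1 + t) * ‖p.1‖ := by
    have : (p + t • (p.1, (0 : ℂ))).1 = (1 + t : ℝ) • p.1 := by
      simp [add_smul]
    rw [this, norm_smul, Real.norm_of_nonneg (by positivity)]
  rw [e1] at hk ⊢
  apply h_mono hV (by positivity) _ hk
  rw [e2]
  have := norm_nonneg p.1
  gcongr
  nlinarith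

theorem Phi_der (hV : Good V) {p : ℂ × ℂ} (hp : p ∈ Dom V) (v : ℂ × ℂ)
    (hv : fderiv ℝ (Phi V) p v = 0) : v = 0 := by
  have hd : DifferentiableAt ℝ (H V) p := (H_smooth hV hp).differentiableAt (by simp)
  set D := fderiv ℝ (H V) p with hD
  have hH : HasFDerivAt (H V) D p := hd.hasFDerivAt
  have h1 : HasFDerivAt (Phi V)
      (((1 + H V p) • (ContinuousLinearMap.fst ℝ ℂ ℂ) +
        (D.smulRight p.1)).prod (ContinuousLinearMap.snd ℝ ℂ ℂ)) p := by
    unfold Phi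
    apply HasFDerivAt.prodMk
    · exact (hH.const_add 1).smul hasFDerivAt_fst
    · exact hasFDerivAt_snd
  rw [h1.fderiv] at hv
  have hv2 : v.2 = 0 := congrArg Prod.snd hv
  have hv1 : (1 + H V p) • v.1 + D v • p.1 = 0 := congrArg Prod.fst hv
  have hv' : v = (v.1, 0) := Prod.ext rfl hv2
  have hHp : 0 < 1 + H V p := by linarith [H_nonneg (V := V) p]
  have e1 : v.1 = (-(D v / (1 + H V p))) • p.1 := by
    have h2 : (1 + H V p) • v.1 = -(D v • p.1) := eq_neg_of_add_eq_zero_left hv1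
    have h3 : v.1 = (1 + H V p)⁻¹ • ((1 + H V p) • v.1) := by
      rw [smul_smul, inv_mul_cancel₀ hHp.ne', one_smul]
    rw [h3, h2, smul_neg, smul_smul, neg_smul]
    congr 2
    field_simp
  have e2 : v = (-(D v / (1 + H V p))) • (p.1, (0 : ℂ)) := by
    refine Prod.ext ?_ ?_
    · exact e1
    · simp [hv2]
  have e3 : D v = -(D v / (1 + H V p)) * D (p.1, 0) := by
    conv_lhs => rw [e2]
    rw [map_smul, smul_eq_mul]
  have hrad := radial_deriv hV hp
  have e4 : D v * (1 + D (p.1, 0) / (1 + H V p)) = 0 := by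
    have : D v * (1 + D (p.1, 0) / (1 + H V p)) = D v - (-(D v / (1 + H V p)) * D (p.1, 0)) := by
      field_simp; ring
    rw [this, ← e3, sub_self]
  have e5 : D v = 0 := by
    rcases mul_eq_zero.mp e4 with h | h
    · exact h
    · exfalso
      have : 0 ≤ D (p.1, 0) / (1 + H V p) := div_nonneg hrad hHp.le
      linarith
  rw [e2, e5]
  simp

theorem diffeo (hV : Good V) : ∃ Φ Ψ : ℂ × ℂ → ℂ × ℂ, ContDiffOn ℝ ∞ Φ (Dom V) ∧
    ContDiff ℝ ∞ Ψ ∧ (∀ q, Ψ q ∈ Dom V ∧ Φ (Ψ q) = q) ∧ ∀ p ∈ Dom V, Ψ (Φ p) = p := by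
  obtain ⟨Ψ, h1, h2, h3⟩ := smooth_inverse (isOpen_dom hV) (Φ := Phi V) (n := ∞) (by simp)
    (fun p hp => Phi_smooth hV hp) (Phi_inj hV) (Phi_surj hV) (fun p hp v hv => Phi_der hV hp v hv)
  exact ⟨Phi V, Ψ, fun p hp => (Phi_smooth hV hp).contDiffWithinAt, h1, h2, h3⟩

end Pool.Agent.Q171.Hart
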