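import Mathlib

set_option autoImplicit false

open Set Filter Topology

namespace Pool.Agent.Q171.Hart

theorem smooth_inverse {E : Type*} [NormedAddCommGroup E] [NormedSpace ℝ E]
    [FiniteDimensional ℝ E] {M : Set E} (hM : IsOpen M) {Φ : E → E} {n : WithTop ℕ∞}
    (hn : n ≠ 0)
    (hΦ : ∀ p ∈ M, ContDiffAt ℝ n Φ p) (hinj : InjOn Φ M)
    (hsurj : ∀ q, ∃ p ∈ M, Φ p = q) (hder : ∀ p ∈ M, ∀ v, fderiv ℝ Φ p v = 0 → v = 0) :
    ∃ Ψ : E → E, ContDiff ℝ n Ψ ∧ (∀ q, Ψ q ∈ M ∧ Φ (Ψ q) = q) ∧ ∀ p ∈ M, Ψ (Φ p) = p := by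
  have : CompleteSpace E := FiniteDimensional.complete ℝ E
  choose Ψ hΨM hΨ using hsurj
  refine ⟨Ψ, ?_, fun q => ⟨hΨM q, hΨ q⟩, fun p hp => hinj (hΨM _) hp (hΨ _)⟩
  rw [contDiff_iff_contDiffAt]
  intro q
  set p := Ψ q with hp
  have hpM : p ∈ M := hΨM q
  have hpq : Φ p = q := hΨ q
  have hcd := hΦ p hpM
  have hdiff : DifferentiableAt ℝ Φ p := hcd.differentiableAt hn
  have hinj' : Function.Injective (fderiv ℝ Φ p : E →ₗ[ℝ] E) := by
    rw [injective_iff_map_eq_zero]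
    intro v hv
    exact hder p hpM v hv
  set L : E ≃L[ℝ] E := (LinearEquiv.ofInjectiveEndo _ hinj').toContinuousLinearEquiv with hL
  have hf' : HasFDerivAt Φ (L : E →L[ℝ] E) p := by
    have : (L : E →L[ℝ] E) = fderiv ℝ Φ p := by
      ext v; simp [hL]
    rw [this]; exact hdiff.hasFDerivAt
  have hs := hcd.to_localInverse hf' hn
  rw [hpq] at hs
  apply hs.congr_of_eventuallyEq
  set g := hcd.localInverse hf' hn with hg
  have hgq : g q = p := by
    have := hcd.localInverse_apply_image hf' hn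
    rwa [hpq] at this
  have hgc : ContinuousAt g q := hs.continuousAt
  have hgM : ∀ᶠ y in 𝓝 q, g y ∈ M := hgc.eventually (by rw [hgq]; exact hM.mem_nhds hpM)
  have htgt : ∀ᶠ y in 𝓝 q, y ∈ (hcd.toOpenPartialHomeomorph Φ hf' hn).target := by
    have := hcd.image_mem_toOpenPartialHomeomorph_target hf' hn
    rw [hpq] at this
    exact (hcd.toOpenPartialHomeomorph Φ hf' hn).open_target.mem_nhds this
  filter_upwards [hgM, htgt] with y hy1 hy2
  have h1 : Φ (g y) = y := (hcd.toOpenPartialHomeomorph Φ hf' hn).right_inv hy2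
  exact hinj (hΨM y) hy1 ((hΨ y).trans h1.symm)

end Pool.Agent.Q171.Hart
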