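import Pool.Agent.Q171.Hart.Diffeo

set_option autoImplicit false

open Set Filter Topology
open scoped ContDiff

namespace Pool.Agent.Q171.Hart

/-- the data: a dense sequence of nonzero points and integers growing fast enough -/
structure Dat where
  a : ℕ → ℂ
  n : ℕ → ℕ
  dense : DenseRange a
  ne : ∀ j, a j ≠ 0
  npos : ∀ j, 0 < n j
  small : ∀ j, (1 : ℝ) / n j ≤ (1 / 2) ^ (j + 1)
  small' : ∀ j, (1 : ℝ) / n j * (2 * Real.log ((2 + ‖a j‖) / ‖a j‖)) ≤ (1 / 2) ^ j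

theorem exists_dat : Nonempty Dat := by
  have hd : Dense ({0}ᶜ : Set ℂ) := dense_compl_singleton 0
  obtain ⟨t, hts, htc, htd⟩ := hd.exists_countable_dense_subset
  have hne : t.Nonempty := htd.nonempty
  obtain ⟨a, ha⟩ := htc.exists_eq_range hne
  have hane : ∀ j, a j ≠ 0 := fun j => by
    have : a j ∈ t := ha ▸ mem_range_self j
    simpa using hts this
  have hex : ∀ j, ∃ n : ℕ, 0 < n ∧ (1 : ℝ) / n ≤ (1 / 2) ^ (j + 1) ∧
      (1 : ℝ) / n * (2 * Real.log ((2 + ‖a j‖) / ‖a j‖)) ≤ (1 / 2) ^ j := by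
    intro j
    have h1 : Tendsto (fun n : ℕ => (1 : ℝ) / n) atTop (𝓝 0) := tendsto_one_div_atTop_nhds_zero_nat
    have h2 : Tendsto (fun n : ℕ => (1 : ℝ) / n * (2 * Real.log ((2 + ‖a j‖) / ‖a j‖))) atTop
        (𝓝 (0 * (2 * Real.log ((2 + ‖a j‖) / ‖a j‖)))) := h1.mul_const _
    rw [zero_mul] at h2
    have e1 := h1.eventually_le_const (show (0 : ℝ) < (1 / 2) ^ (j + 1) by positivity)
    have e2 := h2.eventually_le_const (show (0 : ℝ) < (1 / 2) ^ j by positivity)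
    obtain ⟨n, hn⟩ := ((e1.and e2).and (eventually_gt_atTop 0)).exists
    exact ⟨n, hn.2, hn.1.1, hn.1.2⟩
  choose n hn1 hn2 hn3 using hex
  exact ⟨⟨a, n, by rw [DenseRange, ← ha]; exact htd, hane, hn1, hn2, hn3⟩⟩

namespace Dat

variable (d : Dat)

noncomputable def R (j : ℕ) : ℝ := 2 + ‖d.a j‖
noncomputable def c (j : ℕ) : ℝ := 1 / d.n j
noncomputable def ep (m : ℕ) : ℝ := 1 / ((m : ℝ) + 1)
noncomputable def t (m : ℕ) : ℝ := (1 / 2) ^ m

/-- the double sequence -/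
noncomputable def W (k : ℕ) (e : ℝ) (w : ℂ) : ℝ :=
  (1 + ‖w‖ ^ 2) ^ (2 * t k) * ∏ j ∈ Finset.range k, ((‖w - d.a j‖ ^ 2 + e) / d.R j ^ 2) ^ d.c j

noncomputable def V (m : ℕ) (w : ℂ) : ℝ := d.W m (ep m) w

theorem R_pos (j : ℕ) : 0 < d.R j := by unfold R; positivity

theorem c_pos (j : ℕ) : 0 < d.c j := by
  have : (0 : ℝ) < d.n j := by exact_mod_cast d.npos j
  unfold c; positivity

theorem ep_pos (m : ℕ) : 0 < ep m := by unfold ep; positivity

theorem ep_le_one (m : ℕ) : ep m ≤ 1 := by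
  unfold ep
  rw [div_le_one (by positivity)]
  have : (0 : ℝ) ≤ m := Nat.cast_nonneg m
  linarith

theorem ep_anti (m : ℕ) : ep (m + 1) ≤ ep m := by
  unfold ep
  apply one_div_le_one_div_of_le (by positivity)
  push_cast; linarith

theorem t_pos (m : ℕ) : 0 < t m := by unfold t; positivity

theorem t_succ (m : ℕ) : t (m + 1) + d.c m ≤ t m := by
  have := d.small m
  unfold t c
  have e : (1 / 2 : ℝ) ^ m = 2 * (1 / 2) ^ (m + 1) := by rw [pow_succ]; ring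
  rw [e]; linarith

theorem factor_lt (j : ℕ) (w : ℂ) {e : ℝ} (he1 : e ≤ 1) :
    (‖w - d.a j‖ ^ 2 + e) / d.R j ^ 2 < (1 + ‖w‖ ^ 2) ^ 2 := by
  rw [div_lt_iff₀ (pow_pos (d.R_pos j) 2), ← mul_pow]
  have h1 : ‖w - d.a j‖ ≤ ‖w‖ + ‖d.a j‖ := norm_sub_le _ _
  have hw := norm_nonneg w
  have ha := norm_nonneg (d.a j)
  have h2 : ‖w‖ + ‖d.a j‖ + 1 < (1 + ‖w‖ ^ 2) * d.R j := by
    unfold R
    nlinarith [sq_nonneg (‖w‖ - 1 / 2), mul_nonneg (sq_nonneg ‖w‖) ha]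
  calc ‖w - d.a j‖ ^ 2 + e ≤ (‖w‖ + ‖d.a j‖) ^ 2 + 1 := by gcongr
    _ ≤ (‖w‖ + ‖d.a j‖ + 1) ^ 2 := by nlinarith
    _ < ((1 + ‖w‖ ^ 2) * d.R j) ^ 2 := by gcongr

theorem W_pos (k : ℕ) {e : ℝ} (he : 0 < e) (w : ℂ) : 0 < d.W k e w := by
  unfold W
  have := d.R_pos
  apply mul_pos (by positivity)
  apply Finset.prod_pos
  intro j _
  have := d.R_pos j
  positivity

theorem W_nonneg (k : ℕ) {e : ℝ} (he : 0 ≤ e) (w : ℂ) : 0 ≤ d.W k e w := by
  unfold W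
  apply mul_nonneg (by positivity)
  apply Finset.prod_nonneg
  intro j _
  have := d.R_pos j
  positivity

theorem W_mono (k : ℕ) {e e' : ℝ} (he : 0 ≤ e) (hee : e ≤ e') (w : ℂ) :
    d.W k e w ≤ d.W k e' w := by
  unfold W
  apply mul_le_mul_of_nonneg_left _ (by positivity)
  apply Finset.prod_le_prod
  · intro j _
    have := d.R_pos j
    positivity
  · intro j _
    have hR := d.R_pos j
    apply Real.rpow_le_rpow (by positivity) _ (d.c_pos j).le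
    gcongr

theorem W_succ (k : ℕ) {e : ℝ} (he : 0 ≤ e) (he1 : e ≤ 1) (w : ℂ) :
    d.W (k + 1) e w ≤ d.W k e w := by
  unfold W
  rw [Finset.prod_range_succ]
  have hR := d.R_pos k
  have h1 : ((‖w - d.a k‖ ^ 2 + e) / d.R k ^ 2) ^ d.c k ≤ (1 + ‖w‖ ^ 2) ^ (2 * d.c k) := by
    rw [Real.rpow_mul (by positivity)]
    apply Real.rpow_le_rpow (by positivity) _ (d.c_pos k).le
    have := (d.factor_lt k w he1).le
    exact_mod_cast this
  have h2 : (1 + ‖w‖ ^ 2) ^ (2 * t (k + 1)) * (1 + ‖w‖ ^ 2) ^ (2 * d.c k) ≤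
      (1 + ‖w‖ ^ 2) ^ (2 * t k) := by
    rw [← Real.rpow_add (by positivity)]
    apply Real.rpow_le_rpow_of_exponent_le
    · nlinarith [norm_nonneg w]
    · have := d.t_succ k; linarith
  have h3 : 0 ≤ ∏ j ∈ Finset.range k, ((‖w - d.a j‖ ^ 2 + e) / d.R j ^ 2) ^ d.c j := by
    apply Finset.prod_nonneg
    intro j _
    have := d.R_pos j
    positivity
  calc (1 + ‖w‖ ^ 2) ^ (2 * t (k + 1)) *
        ((∏ j ∈ Finset.range k, ((‖w - d.a j‖ ^ 2 + e) / d.R j ^ 2) ^ d.c j) *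
          ((‖w - d.a k‖ ^ 2 + e) / d.R k ^ 2) ^ d.c k)
      ≤ (1 + ‖w‖ ^ 2) ^ (2 * t (k + 1)) *
        ((∏ j ∈ Finset.range k, ((‖w - d.a j‖ ^ 2 + e) / d.R j ^ 2) ^ d.c j) *
          (1 + ‖w‖ ^ 2) ^ (2 * d.c k)) := by gcongr
    _ = ((1 + ‖w‖ ^ 2) ^ (2 * t (k + 1)) * (1 + ‖w‖ ^ 2) ^ (2 * d.c k)) *
        ∏ j ∈ Finset.range k, ((‖w - d.a j‖ ^ 2 + e) / d.R j ^ 2) ^ d.c j := by ring
    _ ≤ _ := by gcongr

theorem W_succ_lt (k : ℕ) {e : ℝ} (he : 0 < e) (he1 : e ≤ 1) (w : ℂ) :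
    d.W (k + 1) e w < d.W k e w := by
  unfold W
  rw [Finset.prod_range_succ]
  have hR := d.R_pos k
  have h1 : ((‖w - d.a k‖ ^ 2 + e) / d.R k ^ 2) ^ d.c k < (1 + ‖w‖ ^ 2) ^ (2 * d.c k) := by
    rw [Real.rpow_mul (by positivity)]
    apply Real.rpow_lt_rpow (by positivity) _ (d.c_pos k)
    have := (d.factor_lt k w he1)
    exact_mod_cast this
  have h2 : (1 + ‖w‖ ^ 2) ^ (2 * t (k + 1)) * (1 + ‖w‖ ^ 2) ^ (2 * d.c k) ≤
      (1 + ‖w‖ ^ 2) ^ (2 * t k) := by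
    rw [← Real.rpow_add (by positivity)]
    apply Real.rpow_le_rpow_of_exponent_le
    · nlinarith [norm_nonneg w]
    · have := d.t_succ k; linarith
  have h3 : 0 < ∏ j ∈ Finset.range k, ((‖w - d.a j‖ ^ 2 + e) / d.R j ^ 2) ^ d.c j := by
    apply Finset.prod_pos
    intro j _
    have := d.R_pos j
    positivity
  calc (1 + ‖w‖ ^ 2) ^ (2 * t (k + 1)) *
        ((∏ j ∈ Finset.range k, ((‖w - d.a j‖ ^ 2 + e) / d.R j ^ 2) ^ d.c j) *
          ((‖w - d.a k‖ ^ 2 + e) / d.R k ^ 2) ^ d.c k)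
      < (1 + ‖w‖ ^ 2) ^ (2 * t (k + 1)) *
        ((∏ j ∈ Finset.range k, ((‖w - d.a j‖ ^ 2 + e) / d.R j ^ 2) ^ d.c j) *
          (1 + ‖w‖ ^ 2) ^ (2 * d.c k)) := by gcongr
    _ = ((1 + ‖w‖ ^ 2) ^ (2 * t (k + 1)) * (1 + ‖w‖ ^ 2) ^ (2 * d.c k)) *
        ∏ j ∈ Finset.range k, ((‖w - d.a j‖ ^ 2 + e) / d.R j ^ 2) ^ d.c j := by ring
    _ ≤ _ := by gcongr

theorem good : Good d.V := by
  refine ⟨fun m => ?_, fun m w => d.W_pos m (ep_pos m) w, fun m w => ?_⟩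
  · unfold V W
    have hn : ContDiff ℝ ∞ (fun w : ℂ => ‖w‖ ^ 2) := contDiff_norm_sq ℂ
    apply ContDiff.mul
    · apply ContDiff.rpow_const_of_ne (contDiff_const.add hn)
      intro w
      positivity
    · apply contDiff_prod
      intro j _
      apply ContDiff.rpow_const_of_ne
      · apply ContDiff.div_const
        apply ContDiff.add _ contDiff_const
        exact hn.comp (contDiff_id.sub contDiff_const)
      · intro w
        have := d.R_pos j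
        have := ep_pos m
        positivity
  · exact (d.W_succ_lt m (ep_pos _) (ep_le_one _) w).trans_le
      (d.W_mono m (ep_pos _).le (ep_anti m) w)

theorem W_anti {k m : ℕ} (hkm : k ≤ m) {e : ℝ} (he : 0 ≤ e) (he1 : e ≤ 1) (w : ℂ) :
    d.W m e w ≤ d.W k e w :=
  antitone_nat_of_succ_le (f := fun k => d.W k e w) (fun k => d.W_succ k he he1 w) hkm

theorem ep_tendsto : Tendsto ep atTop (𝓝 0) := tendsto_one_div_add_atTop_nhds_zero_nat

theorem W_tendsto (k : ℕ) (w : ℂ) : Tendsto (fun m => d.W k (ep m) w) atTop (𝓝 (d.W k 0 w)) := by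
  have hc : Continuous (fun e : ℝ => d.W k e w) := by
    unfold W
    apply Continuous.mul continuous_const
    apply continuous_finsetProd
    intro j _
    exact (Real.continuous_rpow_const (d.c_pos j).le).comp (by fun_prop)
  exact (hc.tendsto 0).comp ep_tendsto

/-- membership criterion -/
theorem mem_of {k : ℕ} {z w : ℂ} (h : ‖z‖ ^ 2 * d.W k 0 w < 1) : (z, w) ∈ Dom d.V := by
  have h1 : Tendsto (fun m => ‖z‖ ^ 2 * d.W k (ep m) w) atTop (𝓝 (‖z‖ ^ 2 * d.W k 0 w)) :=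
    (d.W_tendsto k w).const_mul _
  obtain ⟨m, hm1, hm2⟩ := ((h1.eventually_lt_const h).and (eventually_ge_atTop k)).exists
  refine ⟨m, lt_of_le_of_lt ?_ hm1⟩
  have := d.W_anti hm2 (ep_pos m).le (ep_le_one m) w
  unfold V
  simp only
  gcongr

theorem W_zero_at (j : ℕ) : d.W (j + 1) 0 (d.a j) = 0 := by
  unfold W
  rw [Finset.prod_range_succ]
  simp [(d.c_pos j).ne']

theorem mem_fibre (j : ℕ) (z : ℂ) : (z, d.a j) ∈ Dom d.V :=
  d.mem_of (k := j + 1) (by rw [d.W_zero_at]; simp)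

theorem mem_zero (w : ℂ) : ((0 : ℂ), w) ∈ Dom d.V := ⟨0, by simp⟩

/-- the finite product -/
noncomputable def Q (k : ℕ) (w : ℂ) : ℝ :=
  ∏ j ∈ Finset.range k, (‖w - d.a j‖ ^ 2 / d.R j ^ 2) ^ d.c j

theorem W_zero_eq (k : ℕ) (w : ℂ) : d.W k 0 w = (1 + ‖w‖ ^ 2) ^ (2 * t k) * d.Q k w := by
  simp [W, Q]

theorem Q_nonneg (k : ℕ) (w : ℂ) : 0 ≤ d.Q k w := by
  apply Finset.prod_nonneg
  intro j _
  have := d.R_pos j
  positivity

theorem Q_le_V (k : ℕ) (w : ℂ) : d.Q k w ≤ d.V k w := by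
  have h1 : d.W k 0 w ≤ d.V k w := d.W_mono k le_rfl (ep_pos k).le w
  refine le_trans ?_ h1
  rw [W_zero_eq]
  have h2 : 1 ≤ (1 + ‖w‖ ^ 2) ^ (2 * t k) := by
    apply Real.one_le_rpow
    · nlinarith [norm_nonneg w]
    · have := t_pos k; positivity
  nlinarith [d.Q_nonneg k w]

theorem Q_zero_ge (k : ℕ) : Real.exp (-2) ≤ d.Q k 0 := by
  have h1 : ∀ j, Real.exp (-((1 / 2 : ℝ) ^ j)) ≤ (‖(0 : ℂ) - d.a j‖ ^ 2 / d.R j ^ 2) ^ d.c j := by
    intro j
    have ha : 0 < ‖d.a j‖ := norm_pos_iff.mpr (d.ne j)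
    have hR := d.R_pos j
    rw [zero_sub, norm_neg, ← div_pow, Real.rpow_def_of_pos (by positivity)]
    apply Real.exp_le_exp.mpr
    rw [Real.log_pow]
    have h2 := d.small' j
    have h3 : Real.log (‖d.a j‖ / d.R j) = -Real.log ((2 + ‖d.a j‖) / ‖d.a j‖) := by
      rw [← Real.log_inv, inv_div]; rfl
    rw [h3]
    unfold c
    push_cast
    linarith
  calc Real.exp (-2) ≤ Real.exp (∑ j ∈ Finset.range k, -((1 / 2 : ℝ) ^ j)) := by
        apply Real.exp_le_exp.mpr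
        rw [Finset.sum_neg_distrib, neg_le_neg_iff, geom_sum_eq (by norm_num)]
        have : (0 : ℝ) < (1 / 2) ^ k := by positivity
        rw [div_le_iff_of_neg (by norm_num)]
        linarith
    _ = ∏ j ∈ Finset.range k, Real.exp (-((1 / 2 : ℝ) ^ j)) := Real.exp_sum _ _
    _ ≤ d.Q k 0 := Finset.prod_le_prod (fun j _ => (Real.exp_pos _).le) fun j _ => h1 j

/-- the exponents -/
def N (k : ℕ) : ℕ := ∏ j ∈ Finset.range k, d.n j

def e (k j : ℕ) : ℕ := d.N k / d.n j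

theorem N_pos (k : ℕ) : 0 < d.N k := Finset.prod_pos fun j _ => d.npos j

theorem N_eq {k j : ℕ} (hj : j < k) : d.N k = d.n j * d.e k j := by
  unfold e
  exact (Nat.mul_div_cancel' (Finset.dvd_prod_of_mem _ (Finset.mem_range.mpr hj))).symm

theorem e_pos {k j : ℕ} (hj : j < k) : 0 < d.e k j := by
  have h1 := d.N_eq hj
  have h2 := d.N_pos k
  rcases Nat.eq_zero_or_pos (d.e k j) with h | h
  · rw [h, mul_zero] at h1; omega
  · exact h

/-- the polynomial -/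
noncomputable def P (k : ℕ) (w : ℂ) : ℂ :=
  ∏ j ∈ Finset.range k, ((w - d.a j) / (d.R j : ℂ)) ^ d.e k j

theorem P_norm (k : ℕ) (w : ℂ) : ‖d.P k w‖ ^ 2 = d.Q k w ^ d.N k := by
  unfold P Q
  rw [norm_prod, ← Finset.prod_pow, ← Finset.prod_pow]
  apply Finset.prod_congr rfl
  intro j hj
  have hR := d.R_pos j
  rw [Finset.mem_range] at hj
  rw [norm_pow, norm_div, Complex.norm_real, Real.norm_of_nonneg hR.le, d.N_eq hj, pow_mul,
    ← Real.rpow_natCast ((‖w - d.a j‖ ^ 2 / d.R j ^ 2) ^ d.c j) (d.n j), ← Real.rpow_mul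
    (by positivity)]
  have hn : (d.n j : ℝ) ≠ 0 := by
    have := d.npos j
    positivity
  have : d.c j * (d.n j : ℝ) = 1 := by unfold c; field_simp
  rw [this, Real.rpow_one, ← div_pow, ← pow_mul, ← pow_mul, mul_comm]

theorem P_differentiable (k : ℕ) : Differentiable ℂ (d.P k) := by
  unfold P
  fun_prop

end Dat

end Pool.Agent.Q171.Hart
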